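import Pool.Agent.H67.FS.Targets

/-!
# MP_6f7589_ag, module AG1 (helper94)
-/

set_option autoImplicit false

namespace Pool.Agent.H94.FS

open Pool.Agent.H67.FS Matrix MvPolynomial

universe u

section

variable {K : Type u} [Field K] {m n k : ℕ}

/-- the coordinates of a tuple of matrices -/
def co {R : Type*} (A : Fin (k + 1) → Matrix (Fin m) (Fin n) R) :
    Fin (k + 1) × Fin m × Fin n → R := fun s => A s.1 s.2.1 s.2.2

theorem li_iff {F : Type u} [Field F] (A : Fin (k + 1) → Matrix (Fin m) (Fin n) F) :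
    LinearIndependent F A ↔
      k + 1 ≤ (Matrix.of fun (l : Fin (k + 1)) (p : Fin m × Fin n) => A l p.1 p.2).rank := by
  have h1 : LinearIndependent F (fun (l : Fin (k + 1)) (p : Fin m × Fin n) => A l p.1 p.2) ↔
      LinearIndependent F A := by
    have := LinearMap.linearIndependent_iff
      ((LinearEquiv.curry F F (Fin m) (Fin n)).symm.toLinearMap) (v := A)
      (LinearMap.ker_eq_bot.2 (LinearEquiv.injective _))
    exact this
  rw [← h1, linearIndependent_iff_card_le_finrank_span, Fintype.card_fin,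
    Matrix.rank_eq_finrank_span_row]
  rfl

theorem isClosed_frame {z : Set (Frame K m n k)} (hz : IsClosed z) :
    ∃ I : Set (MvPolynomial (Fin (k + 1) × Fin m × Fin n) K),
      z = {M | ∀ f ∈ I, eval (fun s => M.1 s.1 s.2.1 s.2.2) f = 0} := by
  let _ := zariski K (Fin (k + 1) × Fin m × Fin n)
  obtain ⟨t, ht, rfl⟩ := isClosed_induced_iff.1 hz
  have h2 : IsOpen tᶜ := ht.isOpen_compl
  have h3 : tᶜᶜ ∈ {S : Set (Fin (k + 1) × Fin m × Fin n → K) |
    ∃ I : Set (MvPolynomial (Fin (k + 1) × Fin m × Fin n) K), S = {x | ∀ f ∈ I, eval x f = 0}} := h2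
  rw [compl_compl] at h3
  obtain ⟨I, hI⟩ := h3
  refine ⟨I, ?_⟩
  rw [hI]
  rfl

end

theorem ag1 (hm : T_MINOR.{u}) : T_AG1.{u} := by
  intro K _ _ κ _ _ m n k r A hA hr
  set a : Fin (k + 1) × Fin m × Fin n → κ := fun s => A s.1 s.2.1 s.2.2 with ha
  set P : Ideal (MvPolynomial (Fin (k + 1) × Fin m × Fin n) K) :=
    RingHom.ker (aeval a : MvPolynomial (Fin (k + 1) × Fin m × Fin n) K →ₐ[K] κ) with hP
  have : P.IsPrime := RingHom.ker_isPrime _
  have memP : ∀ f, f ∈ P ↔ aeval a f = 0 := fun f => RingHom.mem_ker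
  -- the minor
  obtain ⟨f, g, hfg⟩ := (hm κ (Fin (k + 1)) (Fin m × Fin n) _ (k + 1)).1 ((li_iff A).1 hA)
  set D : MvPolynomial (Fin (k + 1) × Fin m × Fin n) K :=
    (Matrix.of fun i j => (X (f i, g j) : MvPolynomial (Fin (k + 1) × Fin m × Fin n) K)).det with hD
  have hDP : D ∉ P := by
    rw [memP]
    intro h
    apply hfg
    rw [← h, hD, AlgHom.map_det]
    congr 1
    ext i j
    simp [ha]
  have hDx : ∀ x : Fin (k + 1) × Fin m × Fin n → K, eval x D ≠ 0 →
      LinearIndependent K (fun l => Matrix.of fun i j => x (l, i, j)) := by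
    intro x hx
    rw [li_iff]
    apply (hm K (Fin (k + 1)) (Fin m × Fin n) _ (k + 1)).2
    refine ⟨f, g, ?_⟩
    intro h
    apply hx
    rw [← h, hD, RingHom.map_det]
    congr 1
    ext i j
    simp
  set S : Set (Frame K m n k) :=
    {M | ∀ f ∈ P, eval (fun s => M.1 s.1 s.2.1 s.2.2) f = 0} with hS
  have key : ∀ F : MvPolynomial (Fin (k + 1) × Fin m × Fin n) K,
      (∀ M ∈ S, eval (fun s => M.1 s.1 s.2.1 s.2.2) F = 0) → F ∈ P := by
    intro F hF
    have h1 : F * D ∈ vanishingIdeal K (zeroLocus K P) := by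
      rw [mem_vanishingIdeal_iff]
      intro x hx
      by_cases h0 : eval x D = 0
      · rw [map_mul]
        have : aeval x D = 0 := by simpa [aeval_eq_eval] using h0
        rw [this, mul_zero]
      · have h2 := hF ⟨_, hDx x h0⟩ (by
          intro p hp
          have := hx p hp
          simpa [aeval_eq_eval] using this)
        have h3 : aeval x F = 0 := by simpa [aeval_eq_eval] using h2
        rw [map_mul, h3, zero_mul]
    rw [IsPrime.vanishingIdeal_zeroLocus] at h1
    exact (Ideal.IsPrime.mem_or_mem ‹_› h1).resolve_right hDP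
  refine ⟨S, ⟨?_, ?_⟩, ?_, ?_⟩
  · by_contra hne
    rw [Set.not_nonempty_iff_eq_empty] at hne
    have := key 1 (by rw [hne]; simp)
    exact (Ideal.ne_top_iff_one P).1 (Ideal.IsPrime.ne_top ‹_›) this
  · rw [isPreirreducible_iff_isClosed_union_isClosed]
    intro z₁ z₂ h₁ h₂ hcov
    obtain ⟨I, rfl⟩ := isClosed_frame h₁
    obtain ⟨J, rfl⟩ := isClosed_frame h₂
    by_contra hcon
    push Not at hcon
    obtain ⟨hI, hJ⟩ := hcon
    rw [Set.not_subset] at hI hJ
    obtain ⟨M, hM, hM'⟩ := hI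
    obtain ⟨M2, hM2, hM2'⟩ := hJ
    simp only [Set.mem_ofPred_eq, not_forall] at hM' hM2'
    obtain ⟨p, hp, hp0⟩ := hM'
    obtain ⟨q, hq, hq0⟩ := hM2'
    have h3 : p * q ∈ P := by
      apply key
      intro M3 hM3
      rw [map_mul]
      rcases hcov hM3 with h | h
      · rw [h p hp, zero_mul]
      · rw [h q hq, mul_zero]
    rcases Ideal.IsPrime.mem_or_mem ‹_› h3 with h | h
    · exact hp0 (hM p h)
    · exact hq0 (hM2 q h)
  · intro M hM N hN
    by_contra hcon
    push Not at hcon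
    obtain ⟨f, g, hdet⟩ := (hm K (Fin m) (Fin n) N r).1 hcon
    obtain ⟨x, rfl⟩ := (Submodule.mem_span_range_iff_exists_fun K).1 hN
    set G : MvPolynomial (Fin (k + 1) × Fin m × Fin n) K :=
      (Matrix.of fun i j => ∑ l, C (x l) *
        (X (l, f i, g j) : MvPolynomial (Fin (k + 1) × Fin m × Fin n) K)).det with hG
    apply hdet
    have h4 : G ∈ P := by
      rw [memP]
      by_contra h5
      have h6 := hr x
      apply absurd h6
      rw [not_lt]
      apply (hm κ (Fin m) (Fin n) _ r).2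
      refine ⟨f, g, ?_⟩
      intro h7
      apply h5
      rw [← h7, hG, AlgHom.map_det]
      congr 1
      ext i j
      simp [ha, Matrix.sum_apply, Algebra.smul_def]
    have h8 := hM G h4
    rw [← h8, hG, RingHom.map_det]
    congr 1
    ext i j
    simp [Matrix.sum_apply]
  · intro F hF
    exact (memP F).1 (key F hF)

end Pool.Agent.H94.FS
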