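import Pool.Agent.H67.FS.Targets

/-!
# MP_6f7589_ag, module QUAD (helper94)
-/

set_option autoImplicit false

namespace Pool.Agent.H94.FS

open Pool.Agent.H67.FS

universe u

section

variable {F : Type u} [Field F]

theorem lin3 {P Q R : Fin 4 → F} (h : LinearIndependent F ![P, Q, R]) {a b c : F}
    (h0 : a • P + b • Q + c • R = 0) : a = 0 ∧ b = 0 ∧ c = 0 := by
  have := Fintype.linearIndependent_iff.1 h ![a, b, c] (by
    simp [Fin.sum_univ_three, h0])
  exact ⟨this 0, this 1, this 2⟩

theorem colvec {ι : Type} {e : ι → Fin 4 → F} (h0 : ∀ a, e a 0 = 1)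
    (h1 : Function.Injective fun a => e a 1) {a b c : ι} (hab : a ≠ b) (h : Col e a b c) :
    ∃ t : F, e c = (1 - t) • e a + t • e b ∧ (c ≠ a → t ≠ 0) ∧ (c ≠ b → 1 - t ≠ 0) := by
  have hinj : ∀ u v, e u = e v → u = v := fun u v huv => h1 (by simp only [huv])
  obtain ⟨g, hg, hne⟩ := Fintype.not_linearIndependent_iff.1 h
  simp only [Fin.sum_univ_three] at hg
  have hg' : g 0 • e a + g 1 • e b + g 2 • e c = 0 := hg
  have c0 : g 0 + g 1 + g 2 = 0 := by
    have := congrFun hg' 0
    simpa [h0] using this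
  have c1 : g 0 * e a 1 + g 1 * e b 1 + g 2 * e c 1 = 0 := by
    have := congrFun hg' 1
    simpa using this
  have hd : e a 1 - e b 1 ≠ 0 := fun hh => hab (h1 (sub_eq_zero.1 hh))
  have g2 : g 2 ≠ 0 := by
    intro g2
    rw [g2] at c0 c1
    have h3 : g 0 = 0 := by
      have : g 0 * (e a 1 - e b 1) = 0 := by linear_combination c1 - e b 1 * c0
      exact (mul_eq_zero.1 this).resolve_right hd
    have h4 : g 1 = 0 := by linear_combination c0 - h3
    obtain ⟨i, hi⟩ := hne
    apply hi
    fin_cases i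
    · exact h3
    · exact h4
    · exact g2
  have hv : e c = (1 - (-(g 1 / g 2))) • e a + (-(g 1 / g 2)) • e b := by
    have h5 : (1 - (-(g 1 / g 2))) = -(g 0 / g 2) := by
      field_simp
      linear_combination c0
    rw [h5]
    have h6 : e c = (g 2)⁻¹ • (g 2 • e c) := by rw [smul_smul, inv_mul_cancel₀ g2, one_smul]
    have h7 : g 2 • e c = -(g 0 • e a) - g 1 • e b := by
      linear_combination (norm := module) hg'
    rw [h6, h7]
    simp only [div_eq_mul_inv]
    module
  refine ⟨_, hv, ?_, ?_⟩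
  · intro hca ht
    apply hca
    apply hinj
    rw [hv, ht]
    simp
  · intro hcb ht
    apply hcb
    apply hinj
    have h8 : -(g 1 / g 2) = 1 := by linear_combination -ht
    rw [hv, h8]
    simp

end

theorem quad : T_QUAD.{u} := by
  intro F _ ι e o i w x y h0 h1 hoi how hiw hxo hxw hyo hyw Ci Cx Cy
  obtain ⟨bi, Vi, hbi, hbi'⟩ := colvec h0 h1 how Ci
  obtain ⟨bx, Vx, hbx, hbx'⟩ := colvec h0 h1 how Cx
  obtain ⟨by', Vy, hby, hby'⟩ := colvec h0 h1 how Cy
  have bi0 := hbi hoi.symm
  have bi1 := hbi' hiw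
  have bx1 := hbx' hxw
  have by1 := hby' hyw
  have hd : e w 1 - e o 1 ≠ 0 := fun hh => how (h1 (sub_eq_zero.1 hh)).symm
  have hcr : ∀ z t, e z = (1 - t) • e o + t • e w → 1 - t ≠ 0 →
      cr e o i w z = (1 - bi) * t / (bi * (1 - t)) := by
    intro z t hz ht
    have e1 : e z 1 = (1 - t) * e o 1 + t * e w 1 := by
      have := congrFun hz 1
      simpa using this
    have e2 : e i 1 = (1 - bi) * e o 1 + bi * e w 1 := by
      have := congrFun Vi 1
      simpa using this
    have e3 : e w 1 - e i 1 = (1 - bi) * (e w 1 - e o 1) := by rw [e2]; ring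
    have e4 : e z 1 - e o 1 = t * (e w 1 - e o 1) := by rw [e1]; ring
    have e5 : e i 1 - e o 1 = bi * (e w 1 - e o 1) := by rw [e2]; ring
    have e6 : e w 1 - e z 1 = (1 - t) * (e w 1 - e o 1) := by rw [e1]; ring
    unfold cr
    rw [e3, e4, e5, e6]
    field_simp
  refine ⟨?_, ?_⟩
  · intro m hmo hmw Cm hM
    obtain ⟨bm, Vm, hbm, hbm'⟩ := colvec h0 h1 how Cm
    have bm1 := hbm' hmw
    obtain ⟨p, q, r, s, hli, hps, hqs, hrs, hz, Cpqo, Crsw, Cpri, Cqsm, Cpsx, Cqry⟩ := hM
    have hpq : p ≠ q := by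
      rintro rfl
      obtain ⟨h, -⟩ := lin3 hli (a := 1) (b := -1) (c := 0) (by module)
      exact one_ne_zero h
    have hpr : p ≠ r := by
      rintro rfl
      obtain ⟨h, -⟩ := lin3 hli (a := 1) (b := 0) (c := -1) (by module)
      exact one_ne_zero h
    have hqr : q ≠ r := by
      rintro rfl
      obtain ⟨-, h, -⟩ := lin3 hli (a := 0) (b := 1) (c := -1) (by module)
      exact one_ne_zero h
    have zo := hz o (by simp)
    have zi := hz i (by simp)
    have zw := hz w (by simp)
    obtain ⟨a, Va, ha, ha'⟩ := colvec h0 h1 hpq Cpqo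
    obtain ⟨n, Vn, hn, hn'⟩ := colvec h0 h1 hrs Crsw
    obtain ⟨c, Vc, hc, hc'⟩ := colvec h0 h1 hpr Cpri
    obtain ⟨u, Vu, -, -⟩ := colvec h0 h1 hqs Cqsm
    obtain ⟨v, Vv, -, -⟩ := colvec h0 h1 hps Cpsx
    obtain ⟨l, Vl, -, -⟩ := colvec h0 h1 hqr Cqry
    have a0 := ha zo.1
    have a1 := ha' zo.2.1
    have n0 := hn zw.2.2.1
    have c0 := hc zi.1
    -- the three relations
    have R1 : (-(by' * (1 - c)) + (by' - bi) * (1 - a)) • e p +
        (bi * (1 - l) + (by' - bi) * a) • e q + (bi * l - by' * c) • e r = 0 := by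
      linear_combination (norm := module) bi • Vy - bi • Vl - by' • Vi + by' • Vc - (by' - bi) • Va
    have R2 : ((u * (1 - c)) - u * (1 - bi) * (1 - a) - n * bi * (1 - bm) * (1 - a) -
          n * bm * (1 - c) + n * bm * (1 - bi) * (1 - a)) • e p +
        (n * bi * (1 - u) - u * (1 - bi) * a - n * bi * (1 - bm) * a +
          n * bm * (1 - bi) * a) • e q +
        (u * c - bi * u * (1 - n) - n * bm * c) • e r = 0 := by
      linear_combination (norm := module) (n * bi) • Vm - (n * bi) • Vu + (bi * u) • Vn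
        + (u - n * bm) • Vi - (u - n * bm) • Vc +
        (u * (1 - bi) + n * bi * (1 - bm) - n * bm * (1 - bi) : F) • Va
    have R3 : (n * bi * (1 - v) + v * (1 - c) - v * (1 - bi) * (1 - a) -
          n * bi * (1 - bx) * (1 - a) - n * bx * (1 - c) + n * bx * (1 - bi) * (1 - a)) • e p +
        (-(v * (1 - bi) * a) - n * bi * (1 - bx) * a + n * bx * (1 - bi) * a) • e q +
        (v * c - bi * v * (1 - n) - n * bx * c) • e r = 0 := by
      linear_combination (norm := module) (n * bi) • Vx - (n * bi) • Vv + (bi * v) • Vn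
        + (v - n * bx) • Vi - (v - n * bx) • Vc +
        (v * (1 - bi) + n * bi * (1 - bx) - n * bx * (1 - bi) : F) • Va
    obtain ⟨r1, -, -⟩ := lin3 hli R1
    obtain ⟨r2, -, r2'⟩ := lin3 hli R2
    obtain ⟨-, r3, r3'⟩ := lin3 hli R3
    have s1 : v * (1 - bi) = n * (bx - bi) := by
      have : a * (v * (1 - bi) - n * (bx - bi)) = 0 := by linear_combination -r3
      exact sub_eq_zero.1 ((mul_eq_zero.1 this).resolve_left a0)
    have s2 : u * (1 - by') = n * (bm - by') := by
      have : (1 - a) * (bi * (u * (1 - by') - n * (bm - by'))) = 0 := by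
        linear_combination (-by') * r2 - (u - n * bm) * r1
      exact sub_eq_zero.1 ((mul_eq_zero.1 ((mul_eq_zero.1 this).resolve_left a1)).resolve_left bi0)
    have s3 : v * bm = u * bx := by
      have : c * (n * (v * bm - u * bx)) = 0 := by
        linear_combination u * r3' - v * r2'
      exact sub_eq_zero.1 ((mul_eq_zero.1 ((mul_eq_zero.1 this).resolve_left c0)).resolve_left n0)
    have s4 : bm * (bx - bi) * (1 - by') = bx * (bm - by') * (1 - bi) := by
      have : n * (bm * (bx - bi) * (1 - by') - bx * (bm - by') * (1 - bi)) = 0 := by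
        linear_combination (-(bm * (1 - by'))) * s1 + (bx * (1 - bi)) * s2 +
          ((1 - bi) * (1 - by')) * s3
      exact sub_eq_zero.1 ((mul_eq_zero.1 this).resolve_left n0)
    rw [hcr m bm Vm bm1, hcr x bx Vx bx1, hcr y by' Vy by1]
    rw [div_mul_div_comm, div_eq_div_iff (mul_ne_zero bi0 bm1)
      (mul_ne_zero (mul_ne_zero bi0 bx1) (mul_ne_zero bi0 by1))]
    linear_combination (-(1 - bi) * bi) * s4
  · rintro ⟨p, q, r, s, hli, hps, hqs, hrs, hz, Cpqw, Crsw, Cpro, Cqsi, Cpsx, Cqry⟩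
    have hpq : p ≠ q := by
      rintro rfl
      obtain ⟨h, -⟩ := lin3 hli (a := 1) (b := -1) (c := 0) (by module)
      exact one_ne_zero h
    have hpr : p ≠ r := by
      rintro rfl
      obtain ⟨h, -⟩ := lin3 hli (a := 1) (b := 0) (c := -1) (by module)
      exact one_ne_zero h
    have hqr : q ≠ r := by
      rintro rfl
      obtain ⟨-, h, -⟩ := lin3 hli (a := 0) (b := 1) (c := -1) (by module)
      exact one_ne_zero h
    have zw := hz w (by simp)
    obtain ⟨a, Va, ha, ha'⟩ := colvec h0 h1 hpq Cpqw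
    obtain ⟨n, Vn, hn, hn'⟩ := colvec h0 h1 hrs Crsw
    obtain ⟨c, Vc, hc, hc'⟩ := colvec h0 h1 hpr Cpro
    obtain ⟨u, Vu, -, -⟩ := colvec h0 h1 hqs Cqsi
    obtain ⟨v, Vv, -, -⟩ := colvec h0 h1 hps Cpsx
    obtain ⟨l, Vl, -, -⟩ := colvec h0 h1 hqr Cqry
    have a0 := ha zw.1
    have a1 := ha' zw.2.1
    have n0 := hn zw.2.2.1
    have n1 := hn' zw.2.2.2
    have R1 : ((1 - by') * (1 - c) + by' * (1 - a)) • e p + (by' * a - (1 - l)) • e q +
        ((1 - by') * c - l) • e r = 0 := by
      linear_combination (norm := module) Vl - Vy - (1 - by' : F) • Vc - by' • Va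
    have R2 : (u * (1 - a) - n * ((1 - bi) * (1 - c) + bi * (1 - a))) • e p +
        (n * (1 - u) + u * a - n * bi * a) • e q +
        (-(u * (1 - n)) - n * (1 - bi) * c) • e r = 0 := by
      linear_combination (norm := module) n • Vi - n • Vu + u • Vn - u • Va + (n * (1 - bi) : F) • Vc +
        (n * bi) • Va
    have R3 : (n * (1 - v) + v * (1 - a) - n * ((1 - bx) * (1 - c) + bx * (1 - a))) • e p +
        (v * a - n * bx * a) • e q + (-(v * (1 - n)) - n * (1 - bx) * c) • e r = 0 := by
      linear_combination (norm := module) n • Vx - n • Vv + v • Vn - v • Va + (n * (1 - bx) : F) • Vc +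
        (n * bx) • Va
    obtain ⟨r1, -, -⟩ := lin3 hli R1
    obtain ⟨r2, -, r2'⟩ := lin3 hli R2
    obtain ⟨-, r3, r3'⟩ := lin3 hli R3
    have s1 : v = n * bx := by
      have : a * (v - n * bx) = 0 := by linear_combination r3
      exact sub_eq_zero.1 ((mul_eq_zero.1 this).resolve_left a0)
    have s2 : u * (1 - bx) = v * (1 - bi) := by
      have : (1 - n) * (u * (1 - bx) - v * (1 - bi)) = 0 := by
        linear_combination (-(1 - bx)) * r2' + (1 - bi) * r3'
      exact sub_eq_zero.1 ((mul_eq_zero.1 this).resolve_left n1)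
    have s3 : u * (1 - by') = n * (bi - by') := by
      have : (1 - a) * (u * (1 - by') - n * (bi - by')) = 0 := by
        linear_combination (1 - by') * r2 + n * (1 - bi) * r1
      exact sub_eq_zero.1 ((mul_eq_zero.1 this).resolve_left a1)
    have s4 : (bi - by') * (1 - bx) = bx * (1 - bi) * (1 - by') := by
      have : n * ((bi - by') * (1 - bx) - bx * (1 - bi) * (1 - by')) = 0 := by
        linear_combination (-(1 - bx)) * s3 + (1 - by') * s2 + (1 - by') * (1 - bi) * s1
      exact sub_eq_zero.1 ((mul_eq_zero.1 this).resolve_left n0)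
    rw [hcr x bx Vx bx1, hcr y by' Vy by1]
    rw [div_add_div _ _ (mul_ne_zero bi0 bx1) (mul_ne_zero bi0 by1), div_eq_one_iff_eq
      (mul_ne_zero (mul_ne_zero bi0 bx1) (mul_ne_zero bi0 by1))]
    linear_combination (-bi) * s4

end Pool.Agent.H94.FS
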